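import Mathlib
import Pool.Agent.Lib.MP_4f2529_ag.Final

/-!
# Every numerical semigroup of type `t > 1` is the semigroup of an arithmetically Cohen-Macaulay
projective monomial curve of type `t`
-/

namespace Pool.Agent.Results.MP_4f2529_ag.MonomialCurveOfType

open Pool.Agent.Lib.MP_4f2529_ag

universe u

/-- Let `T` be a numerical semigroup of type `t > 1`. There are `0 = a_0 < a_1 < … < a_n` with
`gcd = 1`, generating `T`, such that over every field the homogeneous coordinate ring of the
projective monomial curve is Cohen-Macaulay of type `t`. -/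
theorem result (T : AddSubmonoid ℕ) (hT : {x | x ∉ T}.Finite)
    (ht : 1 < semigroupType T) :
    ∃ (n : ℕ) (a : Fin (n + 1) → ℕ), StrictMono a ∧ a 0 = 0 ∧ Finset.univ.gcd a = 1 ∧
      AddSubmonoid.closure (Set.range a) = T ∧
      ∀ (k : Type u) [Field k], IsACMOfType k a (semigroupType T) :=
  main T hT ht

end Pool.Agent.Results.MP_4f2529_ag.MonomialCurveOfType
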